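import Mathlib
import Pool.Agent.H351R3.NotKan

/-!
# A five element poset whose `Ex²` of the nerve is Kan, but not for the opposite poset
-/

namespace Pool.Agent.Q171.EX

open CategoryTheory Opposite PartialOrder Pool.Agent.H351R3

/-- If `C` has an element `c` and a monotone map `s` with `a ≤ s a` and `c ≤ s a` for all `a`, then
all horns in `Ex^n N C`, `n ≥ 2`, can be filled. -/
theorem hornExt_of_join (k : ℕ) (C : PartOrd.{0}) (c : C) (s : C → C) (hs : Monotone s)
    (h1 : ∀ a, a ≤ s a) (h2 : ∀ a, c ≤ s a) : HornExt (k + 2) C := by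
  classical
  intro m i D hD
  let Q : PartOrd.{0} := (chN (k + 1)).obj (Od.obj (SimplexCategory.mk (m + 1)))
  obtain ⟨E, hE⟩ := exists_glue (k + 2) C c hD
  let A : Set Q := hornReg (k + 1) m i
  have hmono : ∀ τ ∈ chainsIn (Q := Q) A, ∀ τ' ∈ chainsIn (Q := Q) A, τ ≤ τ' →
      (E τ : C) ≤ (E τ' : C) := by
    intro τ hτ τ' hτ' hle
    obtain ⟨j, hj, hreg'⟩ := chainsIn_hornReg (k + 1) m i (by omega) τ' hτ'
    have hreg := reg_lower (k + 1) _ (facet m j) (x := τ) (y := τ') hle hreg'
    obtain ⟨y, hy⟩ := (mem_face_iff (k + 2) m j _).1 hreg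
    obtain ⟨y', hy'⟩ := (mem_face_iff (k + 2) m j _).1 hreg'
    have h1 : E τ = (D j hj).hom y := by rw [← hE j hj y, hy]
    have h2 : E τ' = (D j hj).hom y' := by rw [← hE j hj y', hy']
    have h3 : y ≤ y' := by
      refine emb_iter (k + 2) (delta_emb m j) _ _ ?_
      rw [hy, hy']
      exact hle
    have h4 : (D j hj).hom y ≤ (D j hj).hom y' := (D j hj).hom.monotone h3
    exact (h1.trans_le h4).trans_eq h2.symm
  let F : NonemptyFiniteChains Q → C := fun τ =>
    if τ ∈ chainsIn A then E τ
    else if h : ∃ x ∈ τ.finset, x ∈ A then s (E (part A τ h)) else c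
  have hF : Monotone F := by
    intro τ τ' hle
    by_cases hτ' : τ' ∈ chainsIn A
    · have hτ : τ ∈ chainsIn A := chainsIn_lower A hle hτ'
      have e1 : F τ = E τ := if_pos hτ
      have e2 : F τ' = E τ' := if_pos hτ'
      rw [e1, e2]
      exact hmono τ hτ τ' hτ' hle
    · by_cases hx : ∃ x ∈ τ.finset, x ∈ A
      · have hx' : ∃ x ∈ τ'.finset, x ∈ A := by
          obtain ⟨x, hx, hxA⟩ := hx
          exact ⟨x, hle hx, hxA⟩
        have e2 : F τ' = s (E (part A τ' hx')) := (if_neg hτ').trans (dif_pos hx')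
        rw [e2]
        have hpart : part A τ hx ≤ part A τ' hx' := by
          intro x hx
          rw [mem_part] at hx ⊢
          exact ⟨hle hx.1, hx.2⟩
        have hE' := hmono _ part_mem _ part_mem hpart
        by_cases hτ : τ ∈ chainsIn A
        · have e1 : F τ = E τ := if_pos hτ
          have hp : part A τ hx = τ := by
            ext x
            rw [mem_part]
            exact ⟨fun h => h.1, fun h => ⟨h, hτ x h⟩⟩
          rw [hp] at hE'
          rw [e1]
          exact hE'.trans (h1 _)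
        · have e1 : F τ = s (E (part A τ hx)) := (if_neg hτ).trans (dif_pos hx)
          rw [e1]
          exact hs hE'
      · have hτ : τ ∉ chainsIn A := by
          intro hτ
          obtain ⟨x, hxm⟩ := τ.nonempty
          exact hx ⟨x, hxm, hτ x hxm⟩
        have e1 : F τ = c := (if_neg hτ).trans (dif_neg hx)
        rw [e1]
        by_cases hx' : ∃ x ∈ τ'.finset, x ∈ A
        · have e2 : F τ' = s (E (part A τ' hx')) := (if_neg hτ').trans (dif_pos hx')
          rw [e2]
          exact h2 _
        · have e2 : F τ' = c := (if_neg hτ').trans (dif_neg hx')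
          rw [e2]
  refine ⟨PartOrd.ofHom ⟨F, hF⟩, fun j hj => ?_⟩
  refine PartOrd.ext (fun y => ?_)
  have hmem : ((chN (k + 2)).map (Od.map (SimplexCategory.δ j))).hom y ∈
      reg (k + 2) _ (facet m j) := (mem_face_iff (k + 2) m j _).2 ⟨y, rfl⟩
  have hmem' : (((chN (k + 2)).map (Od.map (SimplexCategory.δ j))).hom y :
      NonemptyFiniteChains Q) ∈ chainsIn A :=
    fun x hx => ⟨j, hj, hmem x hx⟩
  rw [← hE j hj y]
  exact if_pos hmem'

/-- the opposite of the fence with five elements: `0 < 1 > 2 < 3 > 4` -/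
abbrev M5 : Type := (Fence 2)ᵒᵈ

/-- joining with the middle element -/
def sFun (a : Fence 2) : Fence 2 :=
  ⟨if a.val ≤ 1 then 1 else if a.val = 2 then 2 else 3, by split_ifs <;> norm_num,
    by split_ifs <;> norm_num⟩

theorem sFun_mono {a b : Fence 2} (h : a ≤ b) : sFun a ≤ sFun b := by
  rw [Fence.le_iff] at h ⊢
  dsimp only [sFun]
  have ha := a.nonneg
  have hb := b.nonneg
  have ha' := a.le_two_mul
  have hb' := b.le_two_mul
  push_cast at ha' hb'
  split_ifs <;> omega

theorem sFun_le (a : Fence 2) : sFun a ≤ a := by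
  rw [Fence.le_iff]
  dsimp only [sFun]
  have ha := a.nonneg
  have ha' := a.le_two_mul
  push_cast at ha'
  split_ifs <;> omega

/-- the middle element -/
def mid : Fence 2 := ⟨2, by norm_num, by norm_num⟩

theorem sFun_le_mid (a : Fence 2) : sFun a ≤ mid := by
  rw [Fence.le_iff]
  dsimp only [sFun, mid]
  split_ifs <;> omega

theorem hornExt_M5 : HornExt 2 (PartOrd.of M5) :=
  hornExt_of_join 0 (PartOrd.of M5) (OrderDual.toDual mid)
    (fun a => OrderDual.toDual (sFun (OrderDual.ofDual (α := Fence 2) a)))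
    (fun _ _ hab => sFun_mono hab) (fun _ => sFun_le _) (fun _ => sFun_le_mid _)

/-- The Kan condition is invariant under isomorphisms. -/
theorem kan_of_iso {X Y : SSet.{0}} (e : X ≅ Y) (h : SSet.KanComplex X) : SSet.KanComplex Y := by
  rw [SSet.KanComplex.iff] at h ⊢
  intro n i f hf
  obtain ⟨φ, hφ⟩ := h (fun j hj => f j hj ≫ e.inv) (by
    cases n with
    | zero => exact hf
    | succ n =>
      rw [SSet.horn.isCompatible_iff] at hf ⊢
      intro j k hj hk hjk
      have := hf j k hj hk hjk
      rw [← Category.assoc, ← Category.assoc, this])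
  refine ⟨φ ≫ e.hom, fun j hj => ?_⟩
  rw [← Category.assoc, hφ, Category.assoc, e.inv_hom_id, Category.comp_id]

/-- the functor from the opposite of `M5` to the fence -/
def toF : M5ᵒᵖ ⥤ Fence 2 where
  obj x := OrderDual.ofDual x.unop
  map {x y} f := homOfLE (show OrderDual.ofDual x.unop ≤ OrderDual.ofDual y.unop from
    leOfHom f.unop)

/-- the inverse functor -/
def ofF : Fence 2 ⥤ M5ᵒᵖ where
  obj x := op (OrderDual.toDual x)
  map {x y} f := (homOfLE (show OrderDual.toDual y ≤ OrderDual.toDual x from leOfHom f)).op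

/-- the nerve of the opposite category of `M5` is the nerve of the fence -/
def nerveIso : nerve M5ᵒᵖ ≅ nerve (Fence 2) where
  hom := nerveMap toF
  inv := nerveMap ofF
  hom_inv_id := rfl
  inv_hom_id := rfl

theorem not_kan : ¬ SSet.KanComplex (SSet.ex.{0}.obj (SSet.ex.{0}.obj (nerve M5ᵒᵖ))) := by
  intro h
  have h' := kan_of_iso (SSet.ex.{0}.mapIso (SSet.ex.{0}.mapIso nerveIso)) h
  exact not_hornExt_fence 1 2 le_rfl ((kan_iff 2 (fenceP 2)).1 h')

theorem kan_M5 : SSet.KanComplex (SSet.ex.{0}.obj (SSet.ex.{0}.obj (nerve M5))) :=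
  (kan_iff 2 (PartOrd.of M5)).2 hornExt_M5

end Pool.Agent.Q171.EX
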